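import Pool.Agent.Q206.Mu.Final

/-!
# The levels of the alternation hierarchy of the modal mu-calculus have no Craig interpolation

The definitions are in `Pool/Agent/Q206/Mu/Defs.lean`: formulas in negation normal form (`Fm`),
Kripke models, truth sets (`Fm.sem`), the alternation hierarchy in Niwinski's syntactic version
(`Level`, `Sig n` for `Σ_n`, `Pi n` for `Π_n`), validity of an implication (`Entails`) and Craig
interpolation for the sentences of a set of formulas (`CraigInterpolation`).
-/

namespace Pool.Agent.Results.MP_3aa27d_lc.CraigFails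

open Q206.Mu

/-- For every `n ≥ 3` neither `Σ_n` nor `Π_n` has Craig interpolation.  Moreover for every `N`
there are sentences `φ ∈ Σ_2` and `ψ ∈ Π_2` such that `φ → ψ` is valid and no formula of
`Σ_N ∪ Π_N` in the common letters is an interpolant. -/
theorem result :
    (∀ n, 3 ≤ n → ¬ CraigInterpolation (Sig n) ∧ ¬ CraigInterpolation (Pi n)) ∧
    (∀ N, ∃ φ ∈ Sig 2, ∃ ψ ∈ Pi 2, φ.fv = ∅ ∧ ψ.fv = ∅ ∧ Entails φ ψ ∧
      ∀ χ ∈ Sig N ∪ Pi N, χ.letters ⊆ φ.letters ∩ ψ.letters →
        ¬ (Entails φ χ ∧ Entails χ ψ)) :=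
  ⟨fun n hn => ⟨not_craig n hn true, not_craig n hn false⟩, main⟩

end Pool.Agent.Results.MP_3aa27d_lc.CraigFails
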